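import Pool.Agent.Helper31_UNF.DtiA

set_option autoImplicit false

/-!
# Squad UNF, module DTI: detectors for cliques with two elements
-/

namespace Unf.H31

open Art

theorem dti (htwi : TwiStmt) (hthk : ThkStmt) (hgeo : GeoStmt) (hloc : LocStmt) (hgev : GevStmt)
    (hhta : HtaStmt) (hoac : OacStmt) (hi2f : I2fStmt) : DtiStmt := by
  classical
  intro S _ M C m hm ⟨σ, hσ⟩
  obtain ⟨K, hK0, hK6, hK⟩ := H50.exists_K M
  -- the generators of the clique
  let r : Fin 2 → S := fun i => (σ.symm i).1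
  have hrC : ∀ i, r i ∈ C := fun i => (σ.symm i).2
  have hr : Function.Injective r := fun i j h => σ.symm.injective (Subtype.ext h)
  have hrs : ∀ s ∈ C, ∃ i, r i = s := fun s hs => ⟨σ ⟨s, hs⟩, by
    show (σ.symm (σ ⟨s, hs⟩)).1 = s
    rw [Equiv.symm_apply_apply]⟩
  have hM : ∀ i j, M.M (r i) (r j) = (CoxeterMatrix.I m).M i j := by
    intro i j
    have h := hσ (σ.symm i) (σ.symm j)
    rw [Equiv.apply_symm_apply, Equiv.apply_symm_apply] at h
    exact h
  have hMne : ∀ i j : Fin 2, i ≠ j → M.M (r i) (r j) = m + 2 := by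
    intro i j hij
    rw [hM]
    show (if i = j then 1 else m + 2) = m + 2
    rw [if_neg hij]
  have hKm : m + 1 ≤ K := by
    have h1 := hK (r 0) (r 1) (fun h => absurd (hr h) (by decide)) (by
      rw [hMne 0 1 (by decide)]; omega)
    rw [hMne 0 1 (by decide)] at h1
    exact Nat.le_of_dvd hK0 h1
  -- the path
  let z : Fin (m + 1) → S × Fin K := fun k => (r ⟨k.1 % 2, by omega⟩, ⟨k.1, by omega⟩)
  have hz : Function.Injective z := by
    intro i j h
    have h1 := congrArg Fin.val (congrArg Prod.snd h)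
    exact Fin.ext h1
  have hdiv : ∀ i : Fin (m + 1), i.1 / (m + 1) = 0 := fun i => Nat.div_eq_of_lt i.2
  have hpath : ∀ i j, Adj M K (z i) (z j) ↔ (i.1 + 1 = j.1 ∨ j.1 + 1 = i.1) := by
    intro i j
    constructor
    · rintro ⟨h1, h2, h3, h4⟩
      exact h3
    · intro h
      have h0 : (⟨i.1 % 2, by omega⟩ : Fin 2) ≠ ⟨j.1 % 2, by omega⟩ := by
        intro h'
        have := congrArg Fin.val h'
        simp only at this
        omega
      have h5 : M.M (z i).1 (z j).1 = m + 2 := hMne _ _ h0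
      refine ⟨fun h' => h0 (hr h'), by rw [h5]; omega, h, ?_⟩
      rw [h5]
      show i.1 / (m + 1) = j.1 / (m + 1)
      rw [hdiv, hdiv]
  obtain ⟨N, hn, e, T, θ, Φ, he, hT, hc, hθ, hP⟩ := H50.data htwi hthk M K hK (m + 1) z hz hpath
  have he' : ∀ i, e.symm (Fin.castLE hn i) = z i := fun i => by
    rw [← he, Equiv.symm_apply_apply]
  obtain ⟨Ψ, hΨ⟩ := hoac (m + 1)
  obtain ⟨fold, hfold⟩ := exists_fold m
  -- the inclusion of the clique
  obtain ⟨κ, hκ⟩ := Art.lift (CoxeterMatrix.I m) (fun i => gen M (r i)) (fun i j h => by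
    have h1 := Art.relHolds M (r i) (r j) (by rw [hM]; exact h)
    rw [hM] at h1
    exact h1)
  have hri : ∀ (i : Fin (m + 1)) (j : Fin 2), r ⟨i.1 % 2, by omega⟩ = r j ↔ i.1 % 2 = j.1 := by
    intro i j
    constructor
    · intro h
      exact congrArg Fin.val (hr h)
    · intro h
      congr 1
      exact Fin.ext h
  have hlocal : ∀ (a : Gp (CoxeterMatrix.I m)) (i : Fin (m + 1)),
      θ (κ a) (hg (Fin.castLE hn i)) = Φ (fold a) (hg (Fin.castLE hn i)) := by
    intro a i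
    refine hloc M (CoxeterMatrix.I m) r K N (m + 1) hn e T θ Φ κ fold hP hc hθ hκ ?_ ?_ a i
    · intro j
      rw [hfold]
      congr 2
      refine List.filter_congr ?_
      intro k _
      rw [he']
      exact decide_eq_decide.2 (hri k j).symm
    · rintro j ⟨y1, y2⟩ hy hy' i hadj
      simp only at hy
      subst hy
      rw [he'] at hadj
      obtain ⟨h1, h2, h3, h4⟩ := hadj
      have h1' : j ≠ ⟨i.1 % 2, by omega⟩ := fun h => h1 (by
        show r j = r _
        rw [h])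
      have h1'' : j.1 ≠ i.1 % 2 := fun h => h1' (Fin.ext h)
      have h5 : M.M (r j) (r ⟨i.1 % 2, by omega⟩) = m + 2 := hMne _ _ h1'
      have h4' : y2.1 / (M.M (r j) (r ⟨i.1 % 2, by omega⟩) - 1) =
        i.1 / (M.M (r j) (r ⟨i.1 % 2, by omega⟩) - 1) := h4
      rw [h5] at h4'
      have h4'' : y2.1 / (m + 1) = i.1 / (m + 1) := h4'
      rw [hdiv] at h4''
      have h6 : y2.1 < m + 1 := by
        rcases Nat.div_eq_zero_iff.1 h4'' with h | h
        · omega
        · exact h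
      have h3' : y2.1 + 1 = i.1 ∨ i.1 + 1 = y2.1 := h3
      have h0 := hy' ⟨y2.1, h6⟩
      rw [he'] at h0
      apply h0
      show (r j, y2) = (r ⟨y2.1 % 2, _⟩, ⟨y2.1, _⟩)
      rw [Prod.mk.injEq]
      refine ⟨?_, rfl⟩
      congr 1
      refine Fin.ext ?_
      show j.1 = y2.1 % 2
      have := j.2
      omega
  -- the copies in the path
  have hcopy : ∀ (i : Fin (m + 1)) (j : Fin 2), i.1 % 2 = j.1 →
      Fin.castLE hn i = e (r j, ⟨i.1, by omega⟩) := by
    intro i j hij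
    rw [← he i]
    show e (r ⟨i.1 % 2, _⟩, ⟨i.1, _⟩) = _
    rw [(hri i j).2 hij]
  -- powers
  have hpow : ∀ (i j : Fin 2), i ≠ j → ∀ p : ℤ, κ (gen _ i ^ p) ∈ P M (C \ {r j}) := by
    intro i j hij p
    rw [map_zpow, hκ]
    have h1 : gen M (r i) ∈ P M (C \ {r j}) :=
      Subgroup.subset_closure ⟨r i, ⟨hrC i, fun h => hij (hr h)⟩, rfl⟩
    exact Subgroup.zpow_mem _ h1 p
  -- the double cosets, first case
  have key : ∀ a : Gp (CoxeterMatrix.I m),
      (∀ u, θ (κ a) (hg (e (r 1, u))) ∈ FS e (r 0)) →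
      ∃ p q : ℤ, a = gen _ 1 ^ p * gen _ 0 ^ q := by
    intro a ha
    refine (hi2f m fold hm hfold a).2 ?_
    have hF : ∀ k : Fin (m + 1), k.1 % 2 = 1 →
        (pre (m + 1 + 1) (k.1 + 1))⁻¹ * Ψ (fold a) (pre (m + 1 + 1) (k.1 + 1)) ∈
          Subgroup.closure {y : O (m + 1 + 1) | ∃ j : Fin (m + 1 + 1), k.1 ≤ j.1 ∧
            j.1 ≤ k.1 + 1 ∧ y = ox j} := by
      intro k hk
      have h1 := ha ⟨k.1, by omega⟩
      rw [← hcopy k 1 hk, hlocal, H50.FS_eq] at h1
      refine (hgev N (m + 1) hn _ T Φ hP Ψ hΨ).2 (fold a) (Fin.castLE hn k) k.1 (k.1 + 1)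
        {l | (e.symm l).1 = r 0} (by exact le_rfl) (by exact Nat.lt_succ_self _) (by omega) ?_ ?_ h1
      · refine Or.inr ⟨Fin.castLE hn ⟨k.1 - 1, by omega⟩, ?_, ?_⟩
        · rw [Set.mem_ofPred_eq, he']
          exact (hri _ 0).2 (by
            show (k.1 - 1) % 2 = 0
            omega)
        · show k.1 - 1 + 1 = k.1
          omega
      · by_cases hk' : k.1 + 1 = m + 1
        · exact Or.inl hk'
        · refine Or.inr ⟨Fin.castLE hn ⟨k.1 + 1, by omega⟩, ?_, rfl⟩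
          rw [Set.mem_ofPred_eq, he']
          exact (hri _ 0).2 (by
            show (k.1 + 1) % 2 = 0
            omega)
    obtain ⟨γ, hγ, hγ'⟩ := exists_gam hΨ (fold a) hF
      (Finset.univ.filter (fun k : Fin (m + 1) => k.1 % 2 = 1))
      (fun k hk => (Finset.mem_filter.1 hk).2)
    refine ⟨γ, H50.P_mono _ ?_ hγ, γ⁻¹ * fold a, ?_, by group⟩
    · intro k hk
      exact (Finset.mem_filter.1 hk).2
    · have h3 := (hhta (m + 1) Ψ hΨ).1 {k | k.1 % 2 = 1} (γ⁻¹ * fold a) (fun k hk => by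
        have h4 := hγ' k (Finset.mem_filter.2 ⟨Finset.mem_univ _, hk⟩)
        rw [map_mul, MulAut.mul_apply, ← h4, map_inv, MulAut.inv_apply_self])
      refine H50.P_mono _ ?_ h3
      intro k hk
      have hk' : ¬ k.1 % 2 = 1 := hk
      show k.1 % 2 = 0
      omega
  refine hgeo M C K N e T θ hT hθ ?_ ?_
  · intro s hs a ha h
    obtain ⟨j, rfl⟩ := hrs s hs
    obtain ⟨a, rfl⟩ := H50.surj_P κ r hκ C hrs ha
    have h3 := (hhta (m + 1) Ψ hΨ).1 {k | k.1 % 2 = j.1} (fold a) (fun k hk => by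
      have hk' : k.1 % 2 = j.1 := hk
      have h1 := h ⟨k.1, by omega⟩
      rw [← hcopy k j hk', hlocal] at h1
      exact (hgev N (m + 1) hn _ T Φ hP Ψ hΨ).1 (fold a) (Fin.castLE hn k) (by exact k.2) h1)
    have hj : ∃ j' : Fin 2, j' ≠ j ∧ ∀ k : ℕ, k % 2 ≠ j.1 → k % 2 = j'.1 := by
      rcases (show j = 0 ∨ j = 1 by omega) with rfl | rfl
      · exact ⟨1, by decide, fun k hk => by
          have h0 : k % 2 ≠ 0 := hk
          show k % 2 = 1
          omega⟩
      · exact ⟨0, by decide, fun k hk => by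
          have h0 : k % 2 ≠ 1 := hk
          show k % 2 = 0
          omega⟩
    obtain ⟨j', hj', hj''⟩ := hj
    obtain ⟨p, hp⟩ := (hi2f m fold hm hfold a).1 j' (H50.P_mono _ (fun k hk => hj'' k.1 hk) h3)
    rw [hp]
    exact hpow j' j hj' p
  · intro s hs t ht hst a ha h h'
    obtain ⟨i, rfl⟩ := hrs s hs
    obtain ⟨j, rfl⟩ := hrs t ht
    obtain ⟨a, rfl⟩ := H50.surj_P κ r hκ C hrs ha
    have hij : i ≠ j := fun h0 => hst (by rw [h0])
    have hcase : (i = 0 ∧ j = 1) ∨ (i = 1 ∧ j = 0) := by omega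
    rcases hcase with ⟨rfl, rfl⟩ | ⟨rfl, rfl⟩
    · obtain ⟨p, q, rfl⟩ := key a h
      exact ⟨_, hpow 1 0 (by decide) p, _, hpow 0 1 (by decide) q, map_mul κ _ _⟩
    · obtain ⟨p, q, hpq⟩ := key a⁻¹ (by
        intro u
        rw [map_inv, map_inv]
        exact h' u)
      refine ⟨κ (gen _ 0 ^ (-q)), hpow 0 1 (by decide) _, κ (gen _ 1 ^ (-p)),
        hpow 1 0 (by decide) _, ?_⟩
      rw [← map_mul, zpow_neg, zpow_neg, ← mul_inv_rev, ← hpq, inv_inv]

end Unf.H31
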