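import Pool.Agent.Helper40_UNF.Hta
import Pool.Agent.Helper50_UNF.DtbA
import Pool.Agent.Helper88_UNF.Pth
import Pool.Agent.Helper6_UNF.Oac

set_option autoImplicit false

/-!
# Squad UNF, module DTI: preparations (dihedral subgroups of the free product, folding)
-/

namespace Unf.H31

open Art

variable {n : ℕ} {Ψ : Gp (CoxeterMatrix.A n) →* MulAut (O (n + 1))}

/-- The rotation of the pair `k, k + 1`. -/
def rr {n : ℕ} (k : Fin n) : O (n + 1) := ox k.castSucc * ox k.succ

theorem ox_inv {k : ℕ} (i : Fin k) : (ox i)⁻¹ = ox i := by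
  rw [inv_eq_iff_mul_eq_one]
  exact H6.ox_mul_self i

theorem rr_inv_mul (k : Fin n) : (rr k)⁻¹ * ox k.castSucc = ox k.succ := by
  unfold rr
  rw [mul_inv_rev, ox_inv, ox_inv, mul_assoc, H6.ox_mul_self, mul_one]

theorem ox_mul_rr (k : Fin n) : ox k.castSucc * rr k = (rr k)⁻¹ * ox k.castSucc := by
  rw [rr_inv_mul]
  unfold rr
  rw [← mul_assoc, H6.ox_mul_self, one_mul]

theorem ox_mul_rr_zpow (k : Fin n) (e : ℤ) :
    ox k.castSucc * rr k ^ e = rr k ^ (-e) * ox k.castSucc := by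
  have h : SemiconjBy (ox k.castSucc) (rr k) (rr k)⁻¹ := ox_mul_rr k
  have h2 := h.zpow_right e
  rw [inv_zpow'] at h2
  exact h2

/-- The elements of the dihedral subgroup. -/
theorem dih (k : Fin n) {g : O (n + 1)}
    (hg : g ∈ Subgroup.closure {y : O (n + 1) | ∃ j : Fin (n + 1), k.1 ≤ j.1 ∧ j.1 ≤ k.1 + 1 ∧
      y = ox j}) : ∃ e : ℤ, g = rr k ^ e ∨ g = rr k ^ e * ox k.castSucc := by
  refine Subgroup.closure_induction (p := fun g _ => ∃ e : ℤ, g = rr k ^ e ∨
    g = rr k ^ e * ox k.castSucc) ?_ ?_ ?_ ?_ hg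
  · rintro _ ⟨j, h1, h2, rfl⟩
    rcases Nat.lt_or_ge k.1 j.1 with h | h
    · refine ⟨-1, Or.inr ?_⟩
      have : j = k.succ := Fin.ext (by simp only [Fin.val_succ]; omega)
      rw [this, zpow_neg_one, rr_inv_mul]
    · refine ⟨0, Or.inr ?_⟩
      have : j = k.castSucc := Fin.ext (by simp only [Fin.val_castSucc]; omega)
      rw [this, zpow_zero, one_mul]
  · exact ⟨0, Or.inl (zpow_zero _).symm⟩
  · rintro x y _ _ ⟨a, ha⟩ ⟨b, hb⟩
    rcases ha with rfl | rfl <;> rcases hb with rfl | rfl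
    · exact ⟨a + b, Or.inl (zpow_add _ _ _).symm⟩
    · exact ⟨a + b, Or.inr (by rw [← mul_assoc, zpow_add])⟩
    · exact ⟨a + -b, Or.inr (by rw [mul_assoc, ox_mul_rr_zpow, ← mul_assoc, zpow_add])⟩
    · exact ⟨a + -b, Or.inl (by
        rw [mul_assoc, ← mul_assoc (ox k.castSucc), ox_mul_rr_zpow, mul_assoc (rr k ^ (-b)),
          H6.ox_mul_self, mul_one, zpow_add])⟩
  · rintro x _ ⟨a, ha⟩
    rcases ha with rfl | rfl
    · exact ⟨-a, Or.inl (zpow_neg _ _).symm⟩
    · exact ⟨a, Or.inr (by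
        rw [mul_inv_rev, ox_inv, ← zpow_neg, ox_mul_rr_zpow, neg_neg])⟩

theorem act_rr (h : IsArt n Ψ) (k : Fin n) : Ψ (gen _ k) (rr k) = rr k := by
  obtain ⟨h1, h2, h3⟩ := h k
  unfold rr
  rw [map_mul, h1, h2, mul_assoc, H6.ox_mul_self, mul_one]

theorem act_step (h : IsArt n Ψ) (k : Fin n) (e : ℤ) :
    Ψ (gen _ k) (rr k ^ e * ox k.castSucc) = rr k ^ (e + 1) * ox k.castSucc := by
  rw [map_mul, map_zpow, act_rr h, (h k).1, zpow_add, zpow_one, mul_assoc, mul_assoc]
  rfl

theorem act_zpow (h : IsArt n Ψ) (k : Fin n) (m : ℤ) : ∀ e : ℤ,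
    Ψ (gen _ k ^ m) (rr k ^ e * ox k.castSucc) = rr k ^ (e + m) * ox k.castSucc := by
  induction m using Int.induction_on with
  | zero =>
    intro e
    rw [zpow_zero, map_one, add_zero]
    rfl
  | succ i ih =>
    intro e
    rw [zpow_add, zpow_one, map_mul Ψ, MulAut.mul_apply, act_step h, ih]
    congr 2
    ring
  | pred i ih =>
    intro e
    have h1 : (Ψ (gen _ k))⁻¹ (rr k ^ e * ox k.castSucc) = rr k ^ (e - 1) * ox k.castSucc := by
      rw [MulAut.inv_apply, MulEquiv.symm_apply_eq, act_step h, sub_add_cancel]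
    rw [sub_eq_add_neg, zpow_add, zpow_neg_one, map_mul Ψ, MulAut.mul_apply, map_inv Ψ, h1, ih]
    congr 2
    ring

/-- Parity. -/
theorem parity (h : IsArt n Ψ) : ∃ π : O (n + 1) →* Multiplicative (ZMod 2),
    (∀ i, π (ox i) = Multiplicative.ofAdd 1) ∧ ∀ a g, π (Ψ a g) = π g := by
  obtain ⟨π, hπ⟩ := H6.olift (k := n + 1) (fun _ => (Multiplicative.ofAdd 1 : Multiplicative (ZMod 2)))
    (fun _ => by decide)
  refine ⟨π, hπ, fun a => ?_⟩
  have ha : a ∈ Subgroup.closure (Set.range (gen (CoxeterMatrix.A n))) := by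
    rw [Art.closure_gen]
    exact Subgroup.mem_top _
  refine Subgroup.closure_induction (p := fun a _ => ∀ g, π (Ψ a g) = π g) ?_ ?_ ?_ ?_ ha
  · rintro _ ⟨k, rfl⟩ g
    obtain ⟨h1, h2, h3⟩ := h k
    have e : π.comp (MulEquiv.toMonoidHom (Ψ (gen _ k))) = π := by
      apply H6.oext
      intro j
      show π (Ψ (gen _ k) (ox j)) = π (ox j)
      by_cases e1 : j = k.castSucc
      · rw [e1, h1, map_mul, map_mul, hπ, hπ]
        decide
      · by_cases e2 : j = k.succ
        · rw [e2, h2, hπ, hπ]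
        · rw [h3 j e1 e2]
    exact DFunLike.congr_fun e g
  · intro g
    rw [map_one]
    rfl
  · intro x y _ _ hx hy g
    rw [map_mul, MulAut.mul_apply, hx, hy]
  · intro x _ hx g
    have := hx ((Ψ x)⁻¹ g)
    rw [map_inv, ← this, MulAut.apply_inv_self]

/-- The odd elements of the dihedral subgroup. -/
theorem dih_odd (π : O (n + 1) →* Multiplicative (ZMod 2))
    (hπ : ∀ i, π (ox i) = Multiplicative.ofAdd 1) (k : Fin n) {g : O (n + 1)}
    (hg : g ∈ Subgroup.closure {y : O (n + 1) | ∃ j : Fin (n + 1), k.1 ≤ j.1 ∧ j.1 ≤ k.1 + 1 ∧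
      y = ox j}) (h : π g = Multiplicative.ofAdd 1) :
    ∃ e : ℤ, g = rr k ^ e * ox k.castSucc := by
  obtain ⟨e, he | he⟩ := dih k hg
  · exfalso
    rw [he, map_zpow] at h
    have h1 : π (rr k) = 1 := by
      unfold rr
      rw [map_mul, hπ, hπ]
      decide
    rw [h1, one_zpow] at h
    revert h
    decide
  · exact ⟨e, he⟩

/-- The product of powers of the odd generators with given action. -/
theorem exists_gam (h : IsArt n Ψ) (F : Gp (CoxeterMatrix.A n))
    (hF : ∀ k : Fin n, k.1 % 2 = 1 → (pre (n + 1) (k.1 + 1))⁻¹ * Ψ F (pre (n + 1) (k.1 + 1)) ∈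
      Subgroup.closure {y : O (n + 1) | ∃ j : Fin (n + 1), k.1 ≤ j.1 ∧ j.1 ≤ k.1 + 1 ∧ y = ox j})
    (L : Finset (Fin n)) : (∀ k ∈ L, k.1 % 2 = 1) → ∃ γ ∈ P (CoxeterMatrix.A n) (L : Set (Fin n)),
      ∀ k ∈ L, Ψ γ (pre (n + 1) (k.1 + 1)) = Ψ F (pre (n + 1) (k.1 + 1)) := by
  classical
  obtain ⟨π, hπ, hpar⟩ := parity h
  induction L using Finset.induction_on with
  | empty =>
    intro _
    exact ⟨1, one_mem _, fun k hk => absurd hk (Finset.notMem_empty k)⟩
  | insert k₀ L hk₀ ih =>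
    intro hL
    obtain ⟨γ, hγ, hγ'⟩ := ih (fun k hk => hL k (Finset.mem_insert_of_mem hk))
    have hodd : k₀.1 % 2 = 1 := hL k₀ (Finset.mem_insert_self _ _)
    have hLo : ∀ k ∈ L, k.1 % 2 = 1 := fun k hk => hL k (Finset.mem_insert_of_mem hk)
    have hpk : pre (n + 1) (k₀.1 + 1) = pre (n + 1) k₀.1 * ox k₀.castSucc :=
      H40.pre_succ k₀.castSucc
    -- the element `z`
    have hz : (pre (n + 1) k₀.1)⁻¹ * Ψ F (pre (n + 1) (k₀.1 + 1)) ∈
        Subgroup.closure {y : O (n + 1) | ∃ j : Fin (n + 1), k₀.1 ≤ j.1 ∧ j.1 ≤ k₀.1 + 1 ∧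
          y = ox j} := by
      have e1 : (pre (n + 1) k₀.1)⁻¹ * Ψ F (pre (n + 1) (k₀.1 + 1)) = ox k₀.castSucc *
          ((pre (n + 1) (k₀.1 + 1))⁻¹ * Ψ F (pre (n + 1) (k₀.1 + 1))) := by
        rw [← mul_assoc, hpk, mul_inv_rev, ← mul_assoc, mul_inv_cancel, one_mul]
      rw [e1]
      refine Subgroup.mul_mem _ (Subgroup.subset_closure ⟨_, ?_, ?_, rfl⟩) (hF k₀ hodd)
      · simp only [Fin.val_castSucc]; exact le_rfl
      · simp only [Fin.val_castSucc]; omega
    have hpz : π ((pre (n + 1) k₀.1)⁻¹ * Ψ F (pre (n + 1) (k₀.1 + 1))) =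
        Multiplicative.ofAdd 1 := by
      rw [map_mul, hpar, hpk, map_mul, hπ, map_inv, inv_mul_cancel_left]
    obtain ⟨e, he⟩ := dih_odd π hπ k₀ hz hpz
    have he' : Ψ F (pre (n + 1) (k₀.1 + 1)) = pre (n + 1) k₀.1 * (rr k₀ ^ e * ox k₀.castSucc) := by
      rw [← he, mul_inv_cancel_left]
    have hk₀Q : gen (CoxeterMatrix.A n) k₀ ∈ P (CoxeterMatrix.A n) ({k₀} : Set (Fin n)) :=
      Subgroup.subset_closure ⟨k₀, Set.mem_singleton k₀, rfl⟩
    have hk₀P : gen (CoxeterMatrix.A n) k₀ ^ e ∈ P (CoxeterMatrix.A n) ({k₀} : Set (Fin n)) :=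
      Subgroup.zpow_mem _ hk₀Q e
    refine ⟨γ * gen _ k₀ ^ e, Subgroup.mul_mem _ ?_ ?_, ?_⟩
    · refine H50.P_mono _ ?_ hγ
      intro x hx
      exact Finset.mem_coe.2 (Finset.mem_insert_of_mem hx)
    · refine H50.P_mono _ ?_ hk₀P
      rintro x hx
      rw [Set.mem_singleton_iff] at hx
      rw [hx]
      exact Finset.mem_coe.2 (Finset.mem_insert_self _ _)
    · intro k hk
      rw [map_mul, MulAut.mul_apply]
      rcases Finset.mem_insert.1 hk with rfl | hk
      · have e1 : Ψ (gen _ k ^ e) (pre (n + 1) (k.1 + 1)) =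
            pre (n + 1) k.1 * (rr k ^ e * ox k.castSucc) := by
          rw [hpk, map_mul, H40.stab_pre h (D := {k}) (by omega) ?_ _ hk₀P]
          · have := act_zpow h k e 0
            rw [zpow_zero, one_mul, zero_add] at this
            rw [this]
          · intro l hl
            rw [Set.mem_singleton_iff] at hl
            rw [hl]
            omega
        have hfix1 : Ψ γ (pre (n + 1) k.1) = pre (n + 1) k.1 :=
          H40.stab_pre h (by omega) (fun l hl => by
            have := hLo l hl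
            omega) γ hγ
        have hfix2 : Ψ γ (ox k.castSucc) = ox k.castSucc := by
          refine H40.stab_ox h (fun l hl => ?_) γ hγ
          have h1 := hLo l hl
          have h2 : l ≠ k := fun h' => hk₀ (h' ▸ hl)
          have h3 : l.1 ≠ k.1 := fun h' => h2 (Fin.ext h')
          simp only [Fin.val_castSucc]
          omega
        have hfix3 : Ψ γ (ox k.succ) = ox k.succ := by
          refine H40.stab_ox h (fun l hl => ?_) γ hγ
          have h1 := hLo l hl
          have h2 : l ≠ k := fun h' => hk₀ (h' ▸ hl)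
          have h3 : l.1 ≠ k.1 := fun h' => h2 (Fin.ext h')
          simp only [Fin.val_succ]
          omega
        rw [e1, he', map_mul, map_mul, map_zpow, hfix1, hfix2]
        have : Ψ γ (rr k) = rr k := by
          unfold rr
          rw [map_mul, hfix2, hfix3]
        rw [this]
      · have hne : k.1 ≠ k₀.1 := fun h' => hk₀ (Fin.ext h' ▸ hk)
        rw [H40.stab_pre h (D := {k₀}) (by omega) ?_ _ hk₀P, hγ' k hk]
        intro l hl
        rw [Set.mem_singleton_iff] at hl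
        rw [hl]
        omega

/-- The folding homomorphism. -/
theorem exists_fold (m : ℕ) : ∃ fold : Gp (CoxeterMatrix.I m) →* Gp (CoxeterMatrix.A (m + 1)),
    ∀ i : Fin 2, fold (gen _ i) =
      (((List.finRange (m + 1)).filter (fun k => k.1 % 2 = i.1)).map (gen _)).prod := by
  classical
  let g : ℕ → Gp (CoxeterMatrix.A (m + 1)) := fun i =>
    if h : i < m + 1 then gen _ ⟨i, h⟩ else 1
  have hg : ∀ (i : ℕ) (h : i < m + 1), g i = gen _ ⟨i, h⟩ := fun i h => dif_pos h
  have hp := H88.pth (m + 1) g (by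
    intro i hi
    rw [hg i (by omega), hg (i + 1) hi]
    exact H50.A_braid (Or.inl rfl)) (by
    intro i j hij hj
    rw [hg i (by omega), hg j hj]
    refine H50.A_comm ?_ ?_
    · intro h'
      have := congrArg Fin.val h'
      simp only at this
      omega
    · simp only
      omega)
  have hconv : ∀ q : ℕ, (((List.range (m + 1)).filter (fun i => i % 2 = q)).map g).prod =
      (((List.finRange (m + 1)).filter (fun k => k.1 % 2 = q)).map (gen _)).prod := by
    intro q
    have e1 : List.range (m + 1) = (List.finRange (m + 1)).map Fin.val := by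
      rw [List.map_coe_finRange_eq_range]
    rw [e1, List.filter_map, List.map_map]
    congr 1
    refine List.map_congr_left ?_
    intro k _
    show g k.1 = _
    rw [hg k.1 k.2]
  rw [hconv, hconv] at hp
  obtain ⟨Φ, hΦ⟩ := Art.lift (CoxeterMatrix.I m) (fun i : Fin 2 =>
    (((List.finRange (m + 1)).filter (fun k => k.1 % 2 = i.1)).map
      (gen (CoxeterMatrix.A (m + 1)))).prod) (by
    intro i j _
    by_cases hij : i = j
    · rw [hij]
    · have hM : (CoxeterMatrix.I m).M i j = m + 2 := by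
        show (if i = j then 1 else m + 2) = m + 2
        rw [if_neg hij]
      rw [hM]
      have hc : (i = 0 ∧ j = 1) ∨ (i = 1 ∧ j = 0) := by omega
      rcases hc with ⟨rfl, rfl⟩ | ⟨rfl, rfl⟩
      · exact hp
      · exact hp.symm)
  exact ⟨Φ, hΦ⟩

end Unf.H31
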